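import Mathlib

/-!
RT QC: numbers of nonsquare values of binary quadratic forms over `ZMod p`.
-/

set_option autoImplicit false

namespace Pool.Agent.H42.RT

open Finset

/-- at most `(p+1)/2` elements `x` with `x^2 - a` a square -/
theorem QC_line (p : ℕ) [Fact p.Prime] (hp : p ≠ 2) (a : ZMod p) (ha : a ≠ 0) :
    ∀ [DecidablePred fun x : ZMod p => IsSquare (x ^ 2 - a)],
    2 * ((univ : Finset (ZMod p)).filter (fun x => IsSquare (x ^ 2 - a))).card ≤ p + 1 := by
  classical
  intro _
  have h2 : (2 : ZMod p) ≠ 0 := by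
    intro h
    have h' : ((2 : ℕ) : ZMod p) = 0 := by exact_mod_cast h
    rw [ZMod.natCast_eq_zero_iff] at h'
    exact hp ((Nat.prime_dvd_prime_iff_eq (Fact.out : p.Prime) Nat.prime_two).1 h')
  set X := (univ : Finset (ZMod p)).filter (fun x => IsSquare (x ^ 2 - a)) with hX
  set S := (univ : Finset (ZMod p × ZMod p)).filter (fun w => w.1 ^ 2 - a = w.2 * w.2) with hS
  set R := (univ : Finset (ZMod p)).filter (fun x => x ^ 2 = a) with hR
  -- at most `p - 1` solutions
  have hSc : S.card ≤ p - 1 := by
    have h1 : S.card ≤ ((univ : Finset (ZMod p)).erase 0).card := by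
      apply card_le_card_of_injOn (fun w => w.1 - w.2)
      · intro w hw
        have hw' : w.1 ^ 2 - a = w.2 * w.2 := (mem_filter.1 hw).2
        simp only [coe_erase, coe_univ, Set.mem_sdiff, Set.mem_univ, Set.mem_singleton_iff,
          true_and]
        intro h0
        apply ha
        have : a = (w.1 - w.2) * (w.1 + w.2) := by linear_combination (-1 : ZMod p) * hw'
        rw [this, h0, zero_mul]
      · intro w hw w' hw' he
        have e1 : w.1 ^ 2 - a = w.2 * w.2 := (mem_filter.1 hw).2
        have e2 : w'.1 ^ 2 - a = w'.2 * w'.2 := (mem_filter.1 hw').2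
        simp only at he
        have a1 : a = (w.1 - w.2) * (w.1 + w.2) := by linear_combination (-1 : ZMod p) * e1
        have a2 : a = (w'.1 - w'.2) * (w'.1 + w'.2) := by linear_combination (-1 : ZMod p) * e2
        have hd : w.1 - w.2 ≠ 0 := by
          intro h0
          apply ha
          rw [a1, h0, zero_mul]
        have hs : w.1 + w.2 = w'.1 + w'.2 := by
          apply mul_left_cancel₀ hd
          rw [← a1, he, ← a2]
        have hx : w.1 = w'.1 := by
          apply mul_left_cancel₀ h2
          linear_combination he + hs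
        have hz : w.2 = w'.2 := by
          rw [hx] at hs
          exact add_left_cancel hs
        exact Prod.ext hx hz
    rw [card_erase_of_mem (mem_univ _), card_univ, ZMod.card] at h1
    exact h1
  have hRc : R.card ≤ 2 := by
    have h1 : R ⊆ (Polynomial.nthRoots 2 a).toFinset := by
      intro x hx
      rw [Multiset.mem_toFinset, Polynomial.mem_nthRoots (by norm_num)]
      exact (mem_filter.1 hx).2
    refine (card_le_card h1).trans ((Multiset.toFinset_card_le _).trans ?_)
    exact Polynomial.card_nthRoots 2 a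
  have hfib : ∀ x ∈ X, 2 ≤ (S.filter (fun w => w.1 = x)).card + (if x ^ 2 = a then 1 else 0) := by
    intro x hx
    obtain ⟨z, hz⟩ := (mem_filter.1 hx).2
    by_cases h0 : x ^ 2 = a
    · rw [if_pos h0]
      have : 1 ≤ (S.filter (fun w => w.1 = x)).card := by
        apply card_pos.2
        exact ⟨(x, z), mem_filter.2 ⟨mem_filter.2 ⟨mem_univ _, hz⟩, rfl⟩⟩
      omega
    · rw [if_neg h0]
      have hz0 : z ≠ 0 := by
        rintro rfl
        apply h0
        linear_combination hz
      have hne : z ≠ -z := by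
        intro h
        apply hz0
        apply mul_left_cancel₀ h2
        linear_combination h
      have hsub : ({(x, z), (x, -z)} : Finset (ZMod p × ZMod p)) ⊆ S.filter (fun w => w.1 = x) := by
        intro w hw
        rw [mem_insert, mem_singleton] at hw
        rcases hw with rfl | rfl
        · exact mem_filter.2 ⟨mem_filter.2 ⟨mem_univ _, hz⟩, rfl⟩
        · refine mem_filter.2 ⟨mem_filter.2 ⟨mem_univ _, ?_⟩, rfl⟩
          simp only
          rw [hz]; ring
      have hc : ({(x, z), (x, -z)} : Finset (ZMod p × ZMod p)).card = 2 := by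
        apply card_pair
        intro h
        exact hne (Prod.ext_iff.1 h).2
      have := card_le_card hsub
      omega
  have hsum : 2 * X.card ≤ S.card + R.card := by
    have e1 : ∑ x ∈ X, ((S.filter (fun w => w.1 = x)).card + (if x ^ 2 = a then 1 else 0)) ≤
        S.card + R.card := by
      rw [sum_add_distrib]
      apply Nat.add_le_add
      · have hm : ∀ w ∈ S, w.1 ∈ X := by
          intro w hw
          exact mem_filter.2 ⟨mem_univ _, w.2, (mem_filter.1 hw).2⟩
        rw [← card_eq_sum_card_fiberwise hm]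
      · rw [← card_filter]
        apply card_le_card
        intro x hx
        exact mem_filter.2 ⟨mem_univ _, (mem_filter.1 hx).2⟩
    have e2 : ∑ x ∈ X, 2 ≤
        ∑ x ∈ X, ((S.filter (fun w => w.1 = x)).card + (if x ^ 2 = a then 1 else 0)) :=
      sum_le_sum hfib
    rw [sum_const, smul_eq_mul, mul_comm] at e2
    exact e2.trans e1
  have hp1 : 1 ≤ p := (Fact.out : p.Prime).one_lt.le
  omega

/-- the form `x^2 - c y^2` has at least `(p-1)^2/2` nonsquare values -/
theorem QC_form (p : ℕ) [Fact p.Prime] (hp : p ≠ 2) (c : ZMod p) (hc : c ≠ 0) :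
    ∀ [DecidablePred fun w : ZMod p × ZMod p => ¬ IsSquare (w.1 ^ 2 - c * w.2 ^ 2)],
    (p - 1) ^ 2 ≤ 2 * ((univ : Finset (ZMod p × ZMod p)).filter
      (fun w => ¬ IsSquare (w.1 ^ 2 - c * w.2 ^ 2))).card := by
  classical
  intro _
  set N := (univ : Finset (ZMod p × ZMod p)).filter
      (fun w => ¬ IsSquare (w.1 ^ 2 - c * w.2 ^ 2)) with hN
  have hfib : ∀ y ∈ (univ : Finset (ZMod p)).erase 0, p - 1 ≤ 2 * (N.filter (fun w => w.2 = y)).card := by
    intro y hy
    have hy0 : y ≠ 0 := (mem_erase.1 hy).1
    have ha : c * y ^ 2 ≠ 0 := mul_ne_zero hc (pow_ne_zero 2 hy0)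
    have h1 := QC_line p hp (c * y ^ 2) ha
    have h2 : (univ.filter (fun x : ZMod p => ¬ IsSquare (x ^ 2 - c * y ^ 2))).card ≤
        (N.filter (fun w => w.2 = y)).card := by
      apply card_le_card_of_injOn (fun x => (x, y))
      · intro x hx
        have hx' := (mem_filter.1 hx).2
        exact mem_filter.2 ⟨mem_filter.2 ⟨mem_univ _, hx'⟩, rfl⟩
      · intro x _ x' _ h
        exact (Prod.ext_iff.1 h).1
    have h3 := card_filter_add_card_filter_not (s := (univ : Finset (ZMod p)))
      (fun x : ZMod p => IsSquare (x ^ 2 - c * y ^ 2))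
    rw [card_univ, ZMod.card] at h3
    omega
  have hsum : ∑ y ∈ (univ : Finset (ZMod p)).erase 0, (N.filter (fun w => w.2 = y)).card ≤ N.card := by
    rw [← card_biUnion]
    · apply card_le_card
      intro w hw
      rw [mem_biUnion] at hw
      obtain ⟨y, _, hy⟩ := hw
      exact (mem_filter.1 hy).1
    · intro y _ y' _ hne
      rw [Function.onFun, disjoint_left]
      intro w hw hw'
      exact hne ((mem_filter.1 hw).2.symm.trans (mem_filter.1 hw').2)
  have h4 : ∑ y ∈ (univ : Finset (ZMod p)).erase 0, (p - 1) ≤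
      ∑ y ∈ (univ : Finset (ZMod p)).erase 0, 2 * (N.filter (fun w => w.2 = y)).card :=
    sum_le_sum hfib
  rw [sum_const, card_erase_of_mem (mem_univ _), card_univ, ZMod.card, smul_eq_mul,
    ← mul_sum] at h4
  calc (p - 1) ^ 2 = (p - 1) * (p - 1) := sq _
    _ ≤ _ := h4
    _ ≤ 2 * N.card := Nat.mul_le_mul_left 2 hsum

/-- the form `x^2 + x y + y^2` -/
theorem QC_norm3 (p : ℕ) [Fact p.Prime] (hp : 3 < p) :
    ∀ [DecidablePred fun w : ZMod p × ZMod p => ¬ IsSquare (w.1 ^ 2 + w.1 * w.2 + w.2 ^ 2)],
    (p - 1) ^ 2 ≤ 2 * ((univ : Finset (ZMod p × ZMod p)).filter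
      (fun w => ¬ IsSquare (w.1 ^ 2 + w.1 * w.2 + w.2 ^ 2))).card := by
  classical
  intro _
  have hpp : p.Prime := Fact.out
  have h2 : (2 : ZMod p) ≠ 0 := by
    intro h
    have h' : ((2 : ℕ) : ZMod p) = 0 := by exact_mod_cast h
    rw [ZMod.natCast_eq_zero_iff] at h'
    have := (Nat.prime_dvd_prime_iff_eq hpp Nat.prime_two).1 h'
    omega
  have h3 : (-3 : ZMod p) ≠ 0 := by
    intro h
    have h' : ((3 : ℕ) : ZMod p) = 0 := by
      have : (3 : ZMod p) = 0 := by linear_combination -h
      exact_mod_cast this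
    rw [ZMod.natCast_eq_zero_iff] at h'
    have := (Nat.prime_dvd_prime_iff_eq hpp Nat.prime_three).1 h'
    omega
  have h := QC_form p (by omega) (-3) h3
  refine h.trans (Nat.mul_le_mul_left 2 ?_)
  apply card_le_card_of_injOn (fun w : ZMod p × ZMod p => ((w.1 - w.2) / 2, w.2))
  · intro w hw
    have hw' := (mem_filter.1 hw).2
    refine mem_filter.2 ⟨mem_univ _, ?_⟩
    simp only
    intro hsq
    apply hw'
    have e : w.1 ^ 2 - -3 * w.2 ^ 2 =
        2 * 2 * (((w.1 - w.2) / 2) ^ 2 + (w.1 - w.2) / 2 * w.2 + w.2 ^ 2) := by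
      field_simp
      ring
    rw [e]
    exact (IsSquare.mul_self (2 : ZMod p)).mul hsq
  · intro w _ w' _ he
    simp only [Prod.mk.injEq] at he
    obtain ⟨e1, e2⟩ := he
    have e3 : w.1 - w.2 = w'.1 - w'.2 := by
      field_simp at e1
      exact e1
    rw [e2] at e3
    exact Prod.ext (sub_left_injective e3) e2

end Pool.Agent.H42.RT
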